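import Pool.Agent.Y757.GM.Stm

/-!
# The uniform measure on the half disc is an admissible weight (project GM of helper757, GM-HD)
-/

set_option autoImplicit false

namespace Pool.Agent.Y532.GM

open MeasureTheory Set Filter Topology
open scoped ENNReal
open Pool.Agent.Y757.GM

lemma meas_D (r : ℝ) : MeasurableSet {q : ℝ × ℝ | q.1 ^ 2 + q.2 ^ 2 ≤ r ^ 2} :=
  measurableSet_le ((measurable_fst.pow_const 2).add (measurable_snd.pow_const 2)) measurable_const

lemma meas_HD (r : ℝ) : MeasurableSet (HD r) :=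
  (measurableSet_lt measurable_const measurable_fst).inter (meas_D r)

lemma vol_D {r : ℝ} (hr : 0 < r) :
    volume {q : ℝ × ℝ | q.1 ^ 2 + q.2 ^ 2 ≤ r ^ 2} = ENNReal.ofReal (Real.pi * r ^ 2) := by
  have h := Complex.volume_preserving_equiv_real_prod.measure_preimage
    (meas_D r).nullMeasurableSet
  rw [← h]
  have h2 : Complex.measurableEquivRealProd ⁻¹' {q : ℝ × ℝ | q.1 ^ 2 + q.2 ^ 2 ≤ r ^ 2} =
      Metric.closedBall (0 : ℂ) r := by
    ext z
    rw [Metric.mem_closedBall, dist_zero_right]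
    show z.re ^ 2 + z.im ^ 2 ≤ r ^ 2 ↔ ‖z‖ ≤ r
    have h3 : ‖z‖ ^ 2 = z.re ^ 2 + z.im ^ 2 := by
      rw [Complex.sq_norm, Complex.normSq_apply]; ring
    rw [← h3]
    exact pow_le_pow_iff_left₀ (norm_nonneg _) hr.le two_ne_zero
  rw [h2, Complex.volume_closedBall, ← ENNReal.ofReal_pow hr.le, ENNReal.ofReal_mul Real.pi_pos.le,
    mul_comm]
  congr 1
  rw [ENNReal.ofReal]
  congr 1
  exact (Real.toNNReal_coe (r := NNReal.pi)).symm

lemma vol_HD {r : ℝ} (hr : 0 < r) :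
    volume (HD r) = ENNReal.ofReal (Real.pi * r ^ 2 / 2) := by
  obtain ⟨N, hN⟩ : ∃ N : Set (ℝ × ℝ), N = {q | q.1 < 0 ∧ q.1 ^ 2 + q.2 ^ 2 ≤ r ^ 2} := ⟨_, rfl⟩
  have hNm : MeasurableSet N := by
    rw [hN]
    exact (measurableSet_lt measurable_fst measurable_const).inter (meas_D r)
  have hZ : volume {q : ℝ × ℝ | q.1 = 0} = 0 := by
    have : {q : ℝ × ℝ | q.1 = 0} = ({0} : Set ℝ) ×ˢ (univ : Set ℝ) := by
      ext q; simp
    rw [this, Measure.volume_eq_prod, Measure.prod_prod, Real.volume_singleton, zero_mul]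
  have hmp : MeasurePreserving (fun q : ℝ × ℝ => (-q.1, q.2)) volume volume := by
    have := (Measure.measurePreserving_neg (volume : Measure ℝ)).prod
      (MeasurePreserving.id (volume : Measure ℝ))
    exact this
  have hNe : volume N = volume (HD r) := by
    rw [← hmp.measure_preimage (meas_HD r).nullMeasurableSet]
    congr 1
    ext q
    rw [hN]
    show (q.1 < 0 ∧ q.1 ^ 2 + q.2 ^ 2 ≤ r ^ 2) ↔ (0 < -q.1 ∧ (-q.1) ^ 2 + q.2 ^ 2 ≤ r ^ 2)
    rw [neg_sq, neg_pos]
  have hD1 : {q : ℝ × ℝ | q.1 ^ 2 + q.2 ^ 2 ≤ r ^ 2} ⊆ (HD r ∪ N) ∪ {q | q.1 = 0} := by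
    intro q hq
    rcases lt_trichotomy q.1 0 with h | h | h
    · exact Or.inl (Or.inr (by rw [hN]; exact ⟨h, hq⟩))
    · exact Or.inr h
    · exact Or.inl (Or.inl ⟨h, hq⟩)
  have hD2 : HD r ∪ N ⊆ {q : ℝ × ℝ | q.1 ^ 2 + q.2 ^ 2 ≤ r ^ 2} := by
    rintro q (h | h)
    · exact h.2
    · rw [hN] at h
      exact h.2
  have hdis : Disjoint (HD r) N := by
    rw [Set.disjoint_left]
    intro q h1 h2
    rw [hN] at h2
    exact lt_asymm h1.1 h2.1
  have h1 : volume (HD r ∪ N) = ENNReal.ofReal (Real.pi * r ^ 2) := by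
    rw [← vol_D hr]
    refine le_antisymm (measure_mono hD2) ?_
    calc volume {q : ℝ × ℝ | q.1 ^ 2 + q.2 ^ 2 ≤ r ^ 2}
        ≤ volume ((HD r ∪ N) ∪ {q | q.1 = 0}) := measure_mono hD1
      _ ≤ volume (HD r ∪ N) + volume {q : ℝ × ℝ | q.1 = 0} := measure_union_le _ _
      _ = volume (HD r ∪ N) := by rw [hZ, add_zero]
  rw [measure_union hdis hNm, hNe, ← two_mul] at h1
  have h2 : ENNReal.ofReal (Real.pi * r ^ 2) = 2 * ENNReal.ofReal (Real.pi * r ^ 2 / 2) := by
    have h3 : (2 : ℝ≥0∞) = ENNReal.ofReal 2 := by simp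
    rw [h3, ← ENNReal.ofReal_mul (by norm_num)]
    congr 1
    ring
  rw [h2] at h1
  exact (ENNReal.mul_right_inj (by norm_num) (by norm_num)).mp h1

theorem t_hd : S_hd := by
  intro r hr hr1
  have hpi := Real.pi_pos
  refine ⟨⟨by positivity, hr.le, ?_, ?_⟩, ?_⟩
  · unfold hd
    refine Measure.ae_smul_measure ?_ _
    refine ae_restrict_of_forall_mem (meas_HD r) fun q hq => ⟨hq.1, ?_, ?_⟩
    · have h1 : q.1 ^ 2 ≤ r ^ 2 := by
        have := sq_nonneg q.2
        linarith [hq.2]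
      exact (pow_le_pow_iff_left₀ hq.1.le hr.le two_ne_zero).mp h1
    · have h1 : q.2 ^ 2 ≤ r ^ 2 := by
        have := sq_nonneg q.1
        linarith [hq.2]
      exact (abs_le_of_sq_le_sq h1 hr.le).trans hr1
  · rw [Measure.le_iff]
    intro s hs
    rw [Measure.map_apply measurable_fst hs]
    unfold hd
    rw [Measure.smul_apply, Measure.smul_apply, Measure.restrict_apply (measurable_fst hs)]
    have h1 : Prod.fst ⁻¹' s ∩ HD r ⊆ s ×ˢ Icc (-r) r := by
      rintro q ⟨hq1, hq2⟩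
      refine ⟨hq1, ?_⟩
      have h2 : q.2 ^ 2 ≤ r ^ 2 := by
        have := sq_nonneg q.1
        linarith [hq2.2]
      exact abs_le.mp (abs_le_of_sq_le_sq h2 hr.le)
    have h2 : volume (Prod.fst ⁻¹' s ∩ HD r) ≤ volume s * ENNReal.ofReal (2 * r) := by
      refine (measure_mono h1).trans (le_of_eq ?_)
      rw [Measure.volume_eq_prod, Measure.prod_prod, Real.volume_Icc]
      congr 2
      ring
    rw [smul_eq_mul, smul_eq_mul]
    calc ENNReal.ofReal (2 / (Real.pi * r ^ 2)) * volume (Prod.fst ⁻¹' s ∩ HD r)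
        ≤ ENNReal.ofReal (2 / (Real.pi * r ^ 2)) * (volume s * ENNReal.ofReal (2 * r)) :=
          mul_le_mul' le_rfl h2
      _ = (ENNReal.ofReal (2 / (Real.pi * r ^ 2)) * ENNReal.ofReal (2 * r)) * volume s := by ring
      _ = ENNReal.ofReal (4 / (Real.pi * r)) * volume s := by
          rw [← ENNReal.ofReal_mul (by positivity)]
          congr 2
          field_simp
          ring
  · unfold hd
    rw [Measure.smul_apply, Measure.restrict_apply_univ, vol_HD hr, smul_eq_mul,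
      ← ENNReal.ofReal_mul (by positivity)]
    have : 2 / (Real.pi * r ^ 2) * (Real.pi * r ^ 2 / 2) = 1 := by
      field_simp
    rw [this, ENNReal.ofReal_one]

end Pool.Agent.Y532.GM
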